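import Pool.Agent.Helper40.PB.Rep
import Pool.Agent.Helper80.OKC.Bas
import Pool.Agent.Helper7.RD.Vz
import Pool.Agent.Helper26.MT.Zw

/-! IMAGES UNDER POLYNOMIAL MAPS WHICH REPLACE ONE COORDINATE (over a label of the window `0`): the volume of the hull does
not decrease, if the derivative of the new coordinate in the direction of the replaced one is typically not small. -/

set_option autoImplicit false

namespace Pool.Agent.Helper75.PB

open Finset Filter Topology Matrix Pool.Agent.Helper69.RK Pool.Agent.Helper31.EC Pool.Agent.Helper31.EC.Sp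
open Pool.Agent.Helper40.EL Pool.Agent.Helper89.LX Pool.Agent.Helper3.LF Pool.Agent.Helper84.MT
open Pool.Agent.Helper95.LF Pool.Agent.Helper7.GZ Pool.Agent.Helper7.RD Pool.Agent.Helper40.PB
open Pool.Agent.Helper80.OKC (zu1)
open Pool.Agent.Helper24.PR (ovl cnd_ovl)
open Pool.Agent.Helper36.AM (volO)

noncomputable section

/-- the square of the determinant of the identity matrix with one row replaced, rows permuted by a transposition -/
theorem det_rep {N : ℕ} (g : Fin N → ℝ) (u J : Fin N) (A : Matrix (Fin N) (Fin N) ℝ) (hu : A u = g)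
    (hn : ∀ i, i ≠ u → A i = Pi.single (Equiv.swap u J i) 1) : A.det ^ 2 = g J ^ 2 := by
  have e1 : A.submatrix (Equiv.swap u J) id = (1 : Matrix (Fin N) (Fin N) ℝ).updateRow J g := by
    ext i a
    rw [Matrix.submatrix_apply, id]
    by_cases h : i = J
    · subst h
      rw [Equiv.swap_apply_right, hu, Matrix.updateRow_self]
    · have h1 : Equiv.swap u J i ≠ u := by
        intro h2
        apply h
        have := congrArg (Equiv.swap u J) h2
        rw [Equiv.swap_apply_self, Equiv.swap_apply_left] at this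
        exact this
      rw [hn _ h1, Equiv.swap_apply_self, Matrix.updateRow_ne h, Matrix.one_apply, Pi.single_apply]
      simp only [eq_comm]
  have e2 : ((1 : Matrix (Fin N) (Fin N) ℝ).updateRow J g).det = g J := by
    have h1 := Matrix.cramer_transpose_apply (1 : Matrix (Fin N) (Fin N) ℝ) g J
    rw [Matrix.transpose_one, Matrix.cramer_one] at h1
    exact h1.symm
  have e3 := Matrix.det_permute (Equiv.swap u J) A
  rw [e1, e2] at e3
  rw [e3, mul_pow]
  have e4 : ((Equiv.Perm.sign (Equiv.swap u J) : ℤ) : ℝ) ^ 2 = 1 := by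
    rcases Int.units_eq_one_or (Equiv.Perm.sign (Equiv.swap u J)) with h | h <;> rw [h] <;> simp
  rw [e4, one_mul]

variable {S : Sp} {N κ : ℕ} {E E' : ℕ → ℕ} {ι : Type}

/-- polynomial maps over a label as rows -/
def prow (Q : S.VV N) (l : Lab S) {M' : ℕ} (P : PMap (l.ovr 1 one_pos) N M' κ) : Rows Q (zu1 l).l M' κ 0 (zu1 l).u where
  p := P.G
  deg := P.deg
  fn := by
    filter_upwards [P.fn] with k hk ω ω' h1 h2 h3 h4
    exact hk ω ω' h1 h2 ⟨h4, h3⟩
  cf := by
    obtain ⟨K, hK, hb⟩ := P.bd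
    refine ⟨K, (zu1 l).Sub_sp.2 hK, ?_⟩
    filter_upwards [hb] with k hk ω hω j a
    rw [zero_mul, Real.rpow_zero, mul_one]
    exact hk ω hω j a
  bd := by
    obtain ⟨R, hR, hQ⟩ := ((l.pj.vv Q).chg l.V 1 one_pos).bd
    obtain ⟨K, hK, hb⟩ := P.ev_bd hR
    refine ⟨K, (zu1 l).Sub_sp.2 hK, ?_⟩
    refine Typ.mono (S := l.sp) Typ_true ?_
    filter_upwards [hQ, hb] with k h1 h2 ω hω _ j
    exact h2 ω hω _ (h1 ω hω) j
  lp := by
    intro L hL
    obtain ⟨R, hR, hQ⟩ := ((l.pj.vv Q).chg l.V 1 one_pos).bd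
    have hL' : (l.ovr 1 one_pos).Sub L := (zu1 l).Sub_sp.1 hL
    obtain ⟨K, hK, hb⟩ := P.ev_lip (hR.add hL')
    refine ⟨fun k => K k * L k, (zu1 l).Sub_sp.2 (hK.mul hL'), ?_⟩
    refine Typ.mono (S := l.sp) Typ_true ?_
    filter_upwards [hQ, hb, hL.1, hR.1] with k h1 h2 h3 h4 ω hω _ y hy j
    have hd : S.dl 1 k ≤ 1 := dl_one_le S k
    have hd0 := S.dl_pos 1 k
    have h5 : ∀ i, |Q.v k ((l k).p.π ω) i| ≤ R k := h1 ω hω
    have h6 : L k * S.dl 1 k ≤ L k := mul_le_of_le_one_right h3 hd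
    have h7 := h2 ω hω y (Q.v k ((l k).p.π ω)) (fun i => by
      have e1 : y i = (y i - Q.v k ((l k).p.π ω) i) + Q.v k ((l k).p.π ω) i := by ring
      rw [e1]
      refine (abs_add_le _ _).trans ?_
      have h8 : |y i - Q.v k ((l k).p.π ω) i| ≤ L k * S.dl 1 k := hy i
      have h9 := h5 i
      linarith) (fun i => (h5 i).trans (by linarith)) (L k * S.dl 1 k) (mul_nonneg h3 hd0.le) hy j
    show _ ≤ K k * L k * S.dl 1 k
    rw [mul_assoc]
    exact h7

/-- VOLUMES -/
theorem volO_rep [Finite ι] {s : MSys S N E ι} {l : Lab S} (hl : s.DMc 0 l)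
    (hw : ∀ i, Nul S (fun k => (l k).leak ((s.lf i).win 0 k))) (Φ : PMap (l.ovr 1 one_pos) N 1 κ)
    (J : ∀ k, ((l.ovr 1 one_pos).F k).Ω → Fin N) (hJ : KnB J) (u : Fin N) (hk : 1 ≤ κ)
    (hE : ∀ D, E (κ * D) ≤ E' D) (hD : DerL (ovl s l hw).Q Φ J) :
    volO s 0 ≤ volO ((ovl s l hw).img (rep Φ J hJ u hk) hk hE) 0 := by
  set t := (ovl s l hw).img (rep Φ J hJ u hk) hk hE with ht
  set R := prow s.Q l (rep Φ J hJ u hk) with hR
  let z : PZ (zu1 l) s.Q N := ⟨κ, 0, R, t.Q, fun _ => 0, S.Sub_const le_rfl, by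
    refine Typ.mono (S := (zu1 l).sp) Typ_true (Eventually.of_forall fun k ω _ _ j => ?_)
    have e1 : t.Q.v k ω j = Rows.val (zu1 l) R k ω j := rfl
    rw [e1, sub_self, abs_zero, zero_mul]⟩
  have hAB : ∀ i, ∃ j, PLe (t.cnd 0 j) (upz (zu1 l) (s.cnd 0 i)) := by
    intro i
    refine ⟨i, ?_⟩
    have h1 := (ovl s l hw).cnd_img (rep Φ J hJ u hk) hk hE 0 i
    have h2 : (ovl s l hw).cnd 0 i = upz (zu1 l) (s.cnd 0 i) := congrFun (cnd_ovl s l hw 0) i
    rw [h2] at h1
    exact h1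
  -- the determinant
  have hdet : ∀ k (ω : (l k).T.Ω), (jac (z.R.p k ω) (s.Q.v k ((l k).p.π ω))).det ^ 2 =
      (MvPolynomial.eval ((ovl s l hw).Q.v k ω) (MvPolynomial.pderiv (J k ω) (Φ.G k ω 0))) ^ 2 := by
    intro k ω
    refine det_rep (fun a => MvPolynomial.eval (s.Q.v k ((l k).p.π ω)) (MvPolynomial.pderiv a (Φ.G k ω 0))) u (J k ω) _
      ?_ ?_
    · funext a
      show MvPolynomial.eval _ (MvPolynomial.pderiv a (if u = u then Φ.G k ω 0 else _)) = _
      rw [if_pos rfl]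
    · intro i hi
      funext a
      show MvPolynomial.eval _ (MvPolynomial.pderiv a (if i = u then Φ.G k ω 0 else
        MvPolynomial.X (Equiv.swap u (J k ω) i))) = _
      rw [if_neg hi, MvPolynomial.pderiv_X]
      by_cases h : a = Equiv.swap u (J k ω) i
      · rw [h, Pi.single_eq_same, Pi.single_eq_same, map_one]
      · rw [Pi.single_eq_of_ne h, Pi.single_eq_of_ne (Ne.symm h), map_zero]
  have main : ∀ D : ℕ, 1 ≤ D → volO s 0 ≤ t.vol D 0 := by
    intro D hD1
    obtain ⟨y, hy⟩ := t.exists_can D 0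
    rw [← t.vol_eq hy.1]
    apply le_of_forall_pos_le_add
    intro ε hε
    have h1 := z.vol_out_le (A := s.cnd 0) (B := t.cnd 0) hl hAB hD1 (le_refl (D * z.D)) hy.1.1 (fun _ _ => -ε) ε
      (Eventually.of_forall fun k ω _ => by rw [abs_neg, abs_of_pos hε]) (fun _ => 1) (S.Sub_const zero_le_one) (by
        refine (hD ε hε).mono (Eventually.of_forall fun k (ω : (l k).T.Ω) _ h => ?_)
        have e0 : 1 * (jac (z.R.p k ω) (s.Q.v k ((l k).p.π ω))).det ^ 2 =
            (MvPolynomial.eval ((ovl s l hw).Q.v k ω) (MvPolynomial.pderiv (J k ω) (Φ.G k ω 0))) ^ 2 := by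
          rw [one_mul]
          exact hdet k ω
        refine le_of_le_of_eq ?_ e0.symm
        have e1 : (2 : ℝ) ^ (2 * -ε * (S.F k).n) = ((l.ovr 1 one_pos).dl ε k) ^ 2 := by
          unfold Sp.dl
          rw [← Real.rpow_natCast, ← Real.rpow_mul (by norm_num)]
          congr 1
          have e2 : ((l.ovr 1 one_pos).F k).n = 1 * (S.F k).n := (zu1 l).sp_n k
          rw [e2]
          push_cast
          ring
        rw [e1, ← sq_abs (MvPolynomial.eval _ _)]
        exact pow_le_pow_left₀ ((l.ovr 1 one_pos).dl_pos ε k).le h 2)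
    have h2 := z.out_ad (A := s.cnd 0) (B := t.cnd 0) hl hAB (le_refl (D * z.D)) hy.1.1
    have h3 := s.vol_le_of h2
    have h4 := Pool.Agent.Helper84.MT.volO_le s (D * z.D) 0
    have e3 : ul (fun k => ∑ ω, (l k).T.μ ω * -ε) = -ε := by
      have e4 : (fun k => ∑ ω, (l k).T.μ ω * -ε) = fun _ => -ε := funext fun k => by
        rw [← Finset.sum_mul, Pool.Agent.Helper3.PR.sum_mu, one_mul]
      rw [e4, ul_const]
    have h5 : Pool.Agent.Helper84.MT.vol s.Q (D * z.D) (z.out (D * z.D) y) ≤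
        N - ul (fun k => ∑ ω, (l k).T.μ ω * -ε) - 1 * (N - Pool.Agent.Helper84.MT.vol t.Q D y) := h1
    rw [e3, one_mul] at h5
    linarith
  refine le_ciInf fun D => ?_
  rcases Nat.eq_zero_or_pos D with h0 | h0
  · rw [h0, t.vol_zero]
    exact volO_le_M s 0
  · exact main D h0

end

end Pool.Agent.Helper75.PB
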